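import Pool.Agent.K1H2.BI.Stm

/-!
Project BI (helper2), piece KIDS (helper26): moments of the list of the steps of the children.
-/

set_option autoImplicit false

namespace Pool.Agent.K1H26.BI

open MeasureTheory ProbabilityTheory Filter
open scoped ENNReal Topology BigOperators
open Pool.Agent.K1H2.BI

instance : MeasurableSingletonClass (List Dir) := ⟨fun _ => trivial⟩

lemma tsum_bind {α β : Type*} (p : PMF α) (q : α → PMF β) (f : β → ℝ≥0∞) :
    ∑' b, f b * (p.bind q) b = ∑' a, p a * ∑' b, f b * q a b := by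
  simp_rw [PMF.bind_apply, ← ENNReal.tsum_mul_left]
  rw [ENNReal.tsum_comm]
  refine tsum_congr fun a => tsum_congr fun b => ?_
  ring

lemma tsum_pure {α : Type*} (a : α) (f : α → ℝ≥0∞) :
    ∑' b, f b * (PMF.pure a) b = f a := by
  rw [tsum_eq_single a]
  · simp
  · intro b hb
    simp [PMF.pure_apply, hb]

lemma tsum_map {α β : Type*} (p : PMF α) (g : α → β) (f : β → ℝ≥0∞) :
    ∑' b, f b * (p.map g) b = ∑' a, p a * f (g a) := by
  unfold PMF.map
  rw [tsum_bind]
  refine tsum_congr fun a => ?_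
  rw [Function.comp, tsum_pure]

/-- the law of the steps of the children -/
lemma lint (ν : PMF ℕ) (f : List Dir → ℝ≥0∞) :
    ∫⁻ l, f l ∂(kids ν).toMeasure =
      ∑' k : ℕ, ν k * ∑ v : Fin k → Dir, ((6 : ℝ≥0∞) ^ k)⁻¹ * f (List.ofFn v) := by
  rw [lintegral_countable']
  have h1 : ∀ l : List Dir, (kids ν).toMeasure {l} = kids ν l := fun l =>
    PMF.toMeasure_apply_singleton _ _ (MeasurableSet.singleton l)
  simp_rw [h1]
  unfold kids
  rw [tsum_bind]
  refine tsum_congr fun k => ?_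
  rw [tsum_map, tsum_fintype]
  congr 1
  refine Finset.sum_congr rfl fun v _ => ?_
  rw [PMF.uniformOfFintype_apply, Fintype.card_fun, Fintype.card_fin]
  have h6 : Fintype.card Dir = 6 := by decide
  rw [h6]
  push_cast
  rfl

lemma six_ne (k : ℕ) : ((6 : ℝ≥0∞) ^ k)⁻¹ * (6 : ℝ≥0∞) ^ k = 1 :=
  ENNReal.inv_mul_cancel (pow_ne_zero _ (by norm_num)) (ENNReal.pow_ne_top (by norm_num))

/-- functions of the length -/
lemma lint_len (ν : PMF ℕ) (f : ℕ → ℝ≥0∞) :
    ∫⁻ l : List Dir, f l.length ∂(kids ν).toMeasure = ∑' k : ℕ, ν k * f k := by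
  rw [lint]
  refine tsum_congr fun k => ?_
  congr 1
  simp only [List.length_ofFn]
  rw [Finset.sum_const, Finset.card_univ, Fintype.card_fun, Fintype.card_fin]
  have h6 : Fintype.card Dir = 6 := by decide
  rw [h6, nsmul_eq_mul]
  push_cast
  rw [← mul_assoc, mul_comm ((6 : ℝ≥0∞) ^ k), six_ne, one_mul]

lemma sum_steps (h : Dir → ℝ) (k : ℕ) :
    6 * ∑ v : Fin k → Dir, ∑ i, h (v i) = k * 6 ^ k * ∑ e, h e := by
  induction k with
  | zero => simp
  | succ k ih =>
    have e1 : ∑ v : Fin (k + 1) → Dir, ∑ i, h (v i) =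
        ∑ p : Dir × (Fin k → Dir), (h p.1 + ∑ i, h (p.2 i)) := by
      rw [← (Fin.consEquiv (fun _ : Fin (k + 1) => Dir)).sum_comp]
      refine Finset.sum_congr rfl fun p _ => ?_
      rw [Fin.sum_univ_succ]
      simp [Fin.consEquiv]
    have h6 : Fintype.card Dir = 6 := by decide
    rw [e1, Fintype.sum_prod_type]
    simp only [Finset.sum_add_distrib, Finset.sum_const, Finset.card_univ, Fintype.card_fun,
      Fintype.card_fin, h6, nsmul_eq_mul]
    rw [← Finset.mul_sum, mul_add]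
    push_cast
    rw [ih]
    ring

/-- nonnegative additive functions -/
lemma lint_add (ν : PMF ℕ) (hm : ∑' k : ℕ, ν k * (k : ℝ≥0∞) = 1) (h : Dir → ℝ) (h0 : ∀ e, 0 ≤ h e) :
    ∫⁻ l : List Dir, ENNReal.ofReal (l.map h).sum ∂(kids ν).toMeasure =
      ENNReal.ofReal ((∑ e, h e) / 6) := by
  rw [lint]
  have e1 : ∀ k : ℕ, ∑ v : Fin k → Dir, ((6 : ℝ≥0∞) ^ k)⁻¹ *
      ENNReal.ofReal ((List.ofFn v).map h).sum = (k : ℝ≥0∞) * ENNReal.ofReal ((∑ e, h e) / 6) := by
    intro k
    rw [← Finset.mul_sum]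
    have e2 : ∀ v : Fin k → Dir, ((List.ofFn v).map h).sum = ∑ i, h (v i) := by
      intro v
      rw [List.map_ofFn, List.sum_ofFn]
      rfl
    simp_rw [e2]
    rw [← ENNReal.ofReal_sum_of_nonneg (fun v _ => Finset.sum_nonneg fun i _ => h0 _)]
    have e3 : ∑ v : Fin k → Dir, ∑ i, h (v i) = 6 ^ k * (k * ((∑ e, h e) / 6)) := by
      have := sum_steps h k
      linarith
    rw [e3, ENNReal.ofReal_mul (by positivity), ← mul_assoc, ENNReal.ofReal_pow (by norm_num),
      ENNReal.ofReal_ofNat, six_ne, one_mul, ENNReal.ofReal_mul (by positivity),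
      ENNReal.ofReal_natCast]
  simp_rw [e1, ← mul_assoc]
  rw [ENNReal.tsum_mul_right, hm, one_mul]

lemma meas (ν : PMF ℕ) (f : List Dir → ℝ) : AEStronglyMeasurable f (kids ν).toMeasure :=
  (measurable_from_top (f := f)).aestronglyMeasurable

lemma integrable_of {ν : PMF ℕ} {f : List Dir → ℝ} (h0 : ∀ l, 0 ≤ f l)
    (h : ∫⁻ l, ENNReal.ofReal (f l) ∂(kids ν).toMeasure ≠ ⊤) :
    Integrable f (kids ν).toMeasure := by
  refine ⟨meas ν f, ?_⟩
  rw [hasFiniteIntegral_iff_ofReal (Filter.Eventually.of_forall h0)]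
  exact lt_top_iff_ne_top.2 h

lemma integral_of {ν : PMF ℕ} {f : List Dir → ℝ} (h0 : ∀ l, 0 ≤ f l) :
    ∫ l, f l ∂(kids ν).toMeasure = (∫⁻ l, ENNReal.ofReal (f l) ∂(kids ν).toMeasure).toReal :=
  integral_eq_lintegral_of_nonneg_ae (Filter.Eventually.of_forall h0) (meas ν f)

theorem t_KIDS : S_KIDS := by
  intro ν hν
  -- the moments
  have hlen : ∫⁻ l : List Dir, ENNReal.ofReal (l.length : ℝ) ∂(kids ν).toMeasure = 1 := by
    have := lint_len ν (fun k => ENNReal.ofReal (k : ℝ))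
    simp only [ENNReal.ofReal_natCast] at this ⊢
    rw [this]
    exact hν.mean
  have hlen2 : ∫⁻ l : List Dir, ENNReal.ofReal ((l.length : ℝ) ^ 2) ∂(kids ν).toMeasure ≠ ⊤ := by
    have := lint_len ν (fun k => ENNReal.ofReal ((k : ℝ) ^ 2))
    rw [this]
    have e : ∀ k : ℕ, ENNReal.ofReal ((k : ℝ) ^ 2) = (k : ℝ≥0∞) ^ 2 := by
      intro k
      rw [ENNReal.ofReal_pow (by positivity), ENNReal.ofReal_natCast]
    simp_rw [e]
    exact hν.sq
  have hvar : ∫⁻ l : List Dir, ENNReal.ofReal (((l.length : ℝ) - 1) ^ 2) ∂(kids ν).toMeasure =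
      ∑' k : ℕ, ν k * ENNReal.ofReal (((k : ℝ) - 1) ^ 2) :=
    lint_len ν (fun k => ENNReal.ofReal (((k : ℝ) - 1) ^ 2))
  have hle : ∀ k : ℕ, ENNReal.ofReal (((k : ℝ) - 1) ^ 2) ≤ 1 + (k : ℝ≥0∞) ^ 2 := by
    intro k
    have e : (1 : ℝ≥0∞) + (k : ℝ≥0∞) ^ 2 = ENNReal.ofReal (1 + (k : ℝ) ^ 2) := by
      rw [ENNReal.ofReal_add (by norm_num) (by positivity), ENNReal.ofReal_one,
        ENNReal.ofReal_pow (by positivity), ENNReal.ofReal_natCast]
    rw [e]
    apply ENNReal.ofReal_le_ofReal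
    have : (0 : ℝ) ≤ k := by positivity
    nlinarith
  have hfin : ∑' k : ℕ, ν k * ENNReal.ofReal (((k : ℝ) - 1) ^ 2) ≠ ⊤ := by
    have h1 : ∑' k : ℕ, ν k * ENNReal.ofReal (((k : ℝ) - 1) ^ 2) ≤
        ∑' k : ℕ, (ν k + ν k * (k : ℝ≥0∞) ^ 2) := by
      refine ENNReal.tsum_le_tsum fun k => ?_
      calc ν k * ENNReal.ofReal (((k : ℝ) - 1) ^ 2) ≤ ν k * (1 + (k : ℝ≥0∞) ^ 2) := by
            gcongr
            exact hle k
        _ = ν k + ν k * (k : ℝ≥0∞) ^ 2 := by ring
    refine ne_top_of_le_ne_top ?_ h1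
    rw [ENNReal.tsum_add, ν.tsum_coe]
    exact ENNReal.add_ne_top.2 ⟨ENNReal.one_ne_top, hν.sq⟩
  have hterm : ∀ k : ℕ, ν k * ENNReal.ofReal (((k : ℝ) - 1) ^ 2) ≠ ⊤ := fun k =>
    ENNReal.mul_ne_top (ν.apply_ne_top k) ENNReal.ofReal_ne_top
  have hv : (∑' k : ℕ, ν k * ENNReal.ofReal (((k : ℝ) - 1) ^ 2)).toReal = var ν := by
    rw [ENNReal.tsum_toReal_eq hterm]
    unfold var
    refine tsum_congr fun k => ?_
    rw [ENNReal.toReal_mul, ENNReal.toReal_ofReal (by positivity)]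
  refine ⟨?_, ?_, ?_, ?_, ?_⟩
  · -- positivity of the variance
    rw [← hv]
    refine ENNReal.toReal_pos ?_ hfin
    intro h0
    rw [ENNReal.tsum_eq_zero] at h0
    apply hν.nd
    have h1 : ∀ k : ℕ, k ≠ 1 → ν k = 0 := by
      intro k hk
      rcases mul_eq_zero.1 (h0 k) with h | h
      · exact h
      · exfalso
        have hk' : ((k : ℝ) - 1) ≠ 0 := by
          intro h'
          apply hk
          have : (k : ℝ) = 1 := by linarith
          exact_mod_cast this
        have : 0 < ((k : ℝ) - 1) ^ 2 := by positivity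
        rw [ENNReal.ofReal_eq_zero] at h
        linarith
    have h2 := ν.tsum_coe
    rw [tsum_eq_single 1 (fun k hk => h1 k hk)] at h2
    exact h2
  · exact integrable_of (fun l => by positivity) hlen2
  · rw [integral_of (fun l => by positivity), hlen, ENNReal.toReal_one]
  · rw [integral_of (fun l => by positivity), hvar, hv]
  · intro h
    -- nonnegative functions
    have hpos : ∀ g : Dir → ℝ, (∀ e, 0 ≤ g e) →
        Integrable (fun l : List Dir => (l.map g).sum) (kids ν).toMeasure ∧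
          ∫ l : List Dir, (l.map g).sum ∂(kids ν).toMeasure = (∑ e, g e) / 6 := by
      intro g hg
      have hnn : ∀ l : List Dir, 0 ≤ (l.map g).sum := by
        intro l
        apply List.sum_nonneg
        intro x hx
        obtain ⟨e, _, rfl⟩ := List.mem_map.1 hx
        exact hg e
      have h1 := lint_add ν hν.mean g hg
      refine ⟨integrable_of hnn (by rw [h1]; exact ENNReal.ofReal_ne_top), ?_⟩
      rw [integral_of hnn, h1, ENNReal.toReal_ofReal]
      exact div_nonneg (Finset.sum_nonneg fun e _ => hg e) (by norm_num)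
    obtain ⟨B, hB⟩ : ∃ B : ℝ, 0 ≤ B ∧ ∀ e, 0 ≤ h e + B := by
      refine ⟨∑ e, |h e|, Finset.sum_nonneg fun e _ => abs_nonneg _, fun e => ?_⟩
      have h1 : |h e| ≤ ∑ e, |h e| :=
        Finset.single_le_sum (f := fun e => |h e|) (fun e _ => abs_nonneg _) (Finset.mem_univ e)
      have h2 := neg_abs_le (h e)
      linarith
    obtain ⟨i1, j1⟩ := hpos (fun e => h e + B) hB.2
    obtain ⟨i2, j2⟩ := hpos (fun _ => B) (fun _ => hB.1)
    have hsplit : ∀ l : List Dir, (l.map h).sum =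
        (l.map (fun e => h e + B)).sum - (l.map (fun _ => B)).sum := by
      intro l
      induction l with
      | nil => simp
      | cons a l ih =>
        simp only [List.map_cons, List.sum_cons]
        rw [ih]
        ring
    have hfun : (fun l : List Dir => (l.map h).sum) =
        fun l => (l.map (fun e => h e + B)).sum - (l.map (fun _ => B)).sum := funext hsplit
    refine ⟨?_, ?_⟩
    · rw [hfun]
      exact i1.sub i2
    · rw [hfun, integral_sub i1 i2, j1, j2, Finset.sum_add_distrib]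
      ring

end Pool.Agent.K1H26.BI
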